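import Pool.Agent.H93.CP.Targets

/-!
# Row CME: comeagrely many translates of a point are in the core
-/

set_option autoImplicit false

open Set Filter Topology

namespace Pool.Agent.H66.CPT

open Pool.Agent.H93.CP

theorem pf_CME : T_CME := by
  intro G X _ _ _ _ _ _ _ _ _ _ D t ht x
  obtain ⟨B, V, hB, hBc, -, -, -⟩ := ht.star
  have hBm : ∀ O ∈ B, MeasurableSet {g : G | g • x ∈ O} := by
    intro O hO
    have h1 : MeasurableSet O := by
      have h2 : IsOpen[t] O := @TopologicalSpace.IsTopologicalBasis.isOpen X t O B hB hO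
      exact @IsOpen.measurableSet X O t _ ht.bor.opensMeasurable h2
    exact (MeasurableSMul.measurable_smul_const (M := G) x) h1
  have hW : ∀ O : Set X, ∃ W : Set G, O ∈ B → IsOpen W ∧
      IsMeagre {g : G | ¬ (g • x ∈ O ↔ g ∈ W)} := by
    intro O
    by_cases hO : O ∈ B
    · obtain ⟨W, hW1, hW2⟩ := (hBm O hO).residualEq_isOpen
      refine ⟨W, fun _ => ⟨hW1, ?_⟩⟩
      have h3 : ∀ᶠ g in residual G, (g • x ∈ O ↔ g ∈ W) := by
        filter_upwards [hW2] with g hg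
        exact Iff.of_eq hg
      have h4 : {g : G | (g • x ∈ O ↔ g ∈ W)} ∈ residual G := h3
      have h5 : {g : G | ¬ (g • x ∈ O ↔ g ∈ W)} = {g : G | (g • x ∈ O ↔ g ∈ W)}ᶜ := rfl
      rw [h5]
      show _ ∈ residual G
      rw [compl_compl]
      exact h4
    · exact ⟨∅, fun h => absurd h hO⟩
  choose W hW using hW
  have : Countable B := hBc.to_subtype
  have hM : IsMeagre (⋃ O : B, {g : G | ¬ (g • x ∈ O.1 ↔ g ∈ W O.1)}) :=
    isMeagre_iUnion fun O => (hW O.1 O.2).2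
  refine hM.mono ?_
  intro g hg
  by_contra hgM
  apply hg
  have hg2 : ∀ O ∈ B, (g • x ∈ O ↔ g ∈ W O) := by
    intro O hO
    by_contra h
    exact hgM (mem_iUnion.2 ⟨⟨O, hO⟩, h⟩)
  intro O' hO' hx
  obtain ⟨O, hO, hxO, hOO⟩ :=
    @TopologicalSpace.IsTopologicalBasis.exists_subset_of_mem_open X t B hB (g • x) O' hx hO'
  have hgW : g ∈ W O := (hg2 O hO).1 hxO
  refine ⟨(fun k => k * g) ⁻¹' (W O), (hW O hO).1.preimage (continuous_mul_const g), ?_, ?_⟩
  · show 1 * g ∈ W O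
    rw [one_mul]
    exact hgW
  · show IsMeagre {k : G | k ∈ (fun k => k * g) ⁻¹' (W O) ∧ k • (g • x) ∉ O'}
    have h6 : IsMeagre ((fun k => k * g) ⁻¹' {g : G | ¬ (g • x ∈ O ↔ g ∈ W O)}) :=
      IsMeagre.preimage_of_isOpenMap (continuous_mul_const g) (isOpenMap_mul_right g)
        (hW O hO).2
    refine h6.mono ?_
    rintro k ⟨hk1, hk2⟩
    show ¬ ((k * g) • x ∈ O ↔ k * g ∈ W O)
    intro h7
    apply hk2
    rw [← mul_smul]
    exact hOO (h7.2 hk1)

end Pool.Agent.H66.CPT
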