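import Pool.Agent.H93.CP.Targets

/-!
# Row TRC: countability of the orbits of the group of a system
-/

set_option autoImplicit false

open Set Filter Topology

namespace Pool.Agent.H66.CPT

open Pool.Agent.H93.CP

theorem pf_TRC (hPBD : T_PBD) (hORB : T_ORB) : T_TRC := by
  intro G X _ _ _ _ _ Y
  constructor
  · rintro ⟨A, hA, hA2⟩
    refine ⟨Y.P '' A, hA.image _, fun x => ?_⟩
    obtain ⟨g, b, hb, hgb⟩ := Y.meet x
    obtain ⟨γ, hγ⟩ := hA2 b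
    have h1 : (γ • b : Y.S.Path) = γ.1.h b := rfl
    rw [h1] at hγ
    have h2 := γ.2.2 b hb
    refine ⟨γ.1.c b * g, ?_⟩
    rw [mul_smul, hgb, h2]
    exact ⟨_, hγ, rfl⟩
  · rintro ⟨A, hA, hA2⟩
    classical
    have hch : ∀ a : X, ∃ b : Y.S.Path,
        (∃ b' : Y.S.Path, Y.S.Inf b' ∧ ∃ g : G, g • a = Y.P b') →
          Y.S.Inf b ∧ ∃ g : G, g • a = Y.P b := by
      intro a
      by_cases h : ∃ b' : Y.S.Path, Y.S.Inf b' ∧ ∃ g : G, g • a = Y.P b'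
      · obtain ⟨b', hb'⟩ := h
        exact ⟨b', fun _ => hb'⟩
      · obtain ⟨g, b, -, -⟩ := Y.meet a
        exact ⟨b, fun h' => absurd h' h⟩
    choose f hf using hch
    refine ⟨f '' A ∪ {y : Y.S.Path | ¬ Y.S.Inf y}, (hA.image _).union (hPBD G Y.S).2.1,
      fun y => ?_⟩
    by_cases hy : Y.S.Inf y
    · obtain ⟨g, hg⟩ := hA2 (Y.P y)
      have h1 := hf (g • Y.P y) ⟨y, hy, g⁻¹, by rw [inv_smul_smul]⟩
      obtain ⟨h2, g', hg'⟩ := h1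
      obtain ⟨γ, hγ, hγ2⟩ := (hORB G X Y y (f (g • Y.P y)) hy h2).2
        ⟨g' * g, by rw [mul_smul, hg']⟩
      refine ⟨⟨γ, hγ⟩, Or.inl ?_⟩
      have h3 : ((⟨γ, hγ⟩ : Y.Γ) • y : Y.S.Path) = γ.h y := rfl
      rw [h3, hγ2]
      exact ⟨_, hg, rfl⟩
    · refine ⟨1, Or.inr ?_⟩
      rw [one_smul]
      exact hy

end Pool.Agent.H66.CPT
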